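import Mathlib
import Pool.Agent.W926.PS.Stm

/-!
PS-B: the intersection of few small cells is small.
-/

set_option autoImplicit false

namespace Pool.Agent.W405.PS

open Finset W926.PS

theorem sb : S_B := by
  intro α _ Q R q T pos lev hL hcard x E hE hlev
  rcases E.eq_empty_or_nonempty with rfl | hne
  · rw [card_empty, pow_zero, mul_one]
    exact (card_filter_le _ _).trans (by rwa [card_univ])
  · set l := E.max' hne with hl
    have hlE : l ∈ E := E.max'_mem hne
    have hcard1 : (E.erase l).card + 1 = E.card := card_erase_add_one hlE
    have h := hL.good l x (hlev l hlE) (E.erase l)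
      (fun i hi => by
        have h1 := E.le_max' i (mem_of_mem_erase hi)
        have h2 := ne_of_mem_erase hi
        exact lt_of_le_of_ne h1 h2)
      (by omega) (fun i hi => hlev i (mem_of_mem_erase hi))
    rw [hcard1] at h
    refine le_trans (Nat.mul_le_mul_right _ (card_le_card ?_)) h
    intro y hy
    rw [mem_filter] at hy ⊢
    exact ⟨hy.1, fun i hi => hy.2 i (mem_of_mem_erase hi), hy.2 l hlE⟩

end Pool.Agent.W405.PS
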