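import Mathlib
import Pool.Agent.W926.PS.Stm

/-!
PS-PAIR: pairs in blocks, pigeonhole on types and levels.
-/

set_option autoImplicit false

namespace Pool.Agent.W405.PS

open Finset W926.PS

/-- a large fibre -/
theorem big_fibre {α γ : Type} [DecidableEq α] [Fintype γ] [DecidableEq γ] [Nonempty γ]
    (G : Finset α) (f : α → γ) :
    ∃ c : γ, G.card ≤ Fintype.card γ * (G.filter (fun x => f x = c)).card := by
  obtain ⟨c, -, hc⟩ := Finset.exists_max_image (univ : Finset γ)
    (fun c => (G.filter (fun x => f x = c)).card) univ_nonempty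
  refine ⟨c, ?_⟩
  rw [Finset.card_eq_sum_card_fiberwise (f := f) (t := (univ : Finset γ))
    (fun x _ => by simp)]
  refine (Finset.sum_le_card_nsmul _ _ _ hc).trans ?_
  rw [smul_eq_mul, card_univ]

theorem pair : S_PAIR := by
  intro α _ _ T m lev cl pos hlev hpos hcard
  classical
  obtain ⟨sig, hsig⟩ : ∃ sig : α → (Fin m → ℕ × ℕ), sig = fun (x : α) (l : Fin m) =>
    (lev l x, cl l x) := ⟨_, rfl⟩
  rw [← hsig] at hcard
  obtain ⟨G, hG⟩ : ∃ G : Finset α, G = univ.filter (fun x => ∃ y, y ≠ x ∧ sig y = sig x) := ⟨_, rfl⟩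
  obtain ⟨B, hB⟩ : ∃ B : Finset α, B = univ.filter (fun x => ¬ ∃ y, y ≠ x ∧ sig y = sig x) :=
    ⟨_, rfl⟩
  have h1 : G.card + B.card = Fintype.card α := by
    rw [hG, hB, card_filter_add_card_filter_not, card_univ]
  have h2 : B.card ≤ (univ.image sig).card := by
    refine card_le_card_of_injOn sig (fun x _ => mem_coe.2 (mem_image_of_mem _ (mem_univ x))) ?_
    intro x _ y hy hxy
    rw [hB, mem_coe, mem_filter] at hy
    by_contra hne
    exact hy.2 ⟨x, hne, hxy⟩
  have h3 : Fintype.card α ≤ 2 * G.card := by omega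
  have hex : ∀ x ∈ G, ∃ y, y ≠ x ∧ sig y = sig x := by
    intro x hx
    rw [hG, mem_filter] at hx
    exact hx.2
  have hex2 : ∀ x, ∃ y, x ∈ G → y ≠ x ∧ sig y = sig x := by
    intro x
    by_cases hx : x ∈ G
    · obtain ⟨y, hy⟩ := hex x hx
      exact ⟨y, fun _ => hy⟩
    · exact ⟨x, fun h => absurd h hx⟩
  choose v hv using hex2
  obtain ⟨f, hf⟩ : ∃ f : α → (Fin m → Bool × Fin (T + 1)), f = fun (x : α) (l : Fin m) =>
    (decide (pos l x < pos l (v x)), (⟨lev l x, Nat.lt_succ_of_le (hlev l x)⟩ : Fin (T + 1))) :=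
    ⟨_, rfl⟩
  obtain ⟨c, hc⟩ := big_fibre G f
  have hcγ : Fintype.card (Fin m → Bool × Fin (T + 1)) = (2 * (T + 1)) ^ m := by
    rw [Fintype.card_pi]
    simp
  rw [hcγ] at hc
  refine ⟨G.filter (fun x => f x = c), id, v, fun l => (c l).1, fun l => ((c l).2 : ℕ), ?_, ?_⟩
  · refine h3.trans ?_
    rw [mul_assoc]
    exact Nat.mul_le_mul_left _ hc
  · intro x hx
    rw [mem_filter] at hx
    obtain ⟨hvx, hsx⟩ := hv x hx.1
    refine ⟨fun h => hvx h.symm, fun l => ?_⟩
    have e1 := congrFun hsx l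
    rw [hsig] at e1
    simp only [Prod.mk.injEq] at e1
    have e2 := congrFun hx.2 l
    rw [hf] at e2
    have e3 : decide (pos l x < pos l (v x)) = (c l).1 := congrArg Prod.fst e2
    have e4 : lev l x = ((c l).2 : ℕ) := congrArg (fun z : Bool × Fin (T + 1) => (z.2 : ℕ)) e2
    refine ⟨e4, e4, e1.1.trans e4, rfl, e1.2, ?_⟩
    change pos l x < pos l (v x) ↔ (c l).1 = true
    rw [← e3, decide_eq_true_iff]

end Pool.Agent.W405.PS
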