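import Mathlib
import Pool.Agent.W926.PS.Stm

/-!
PS-UNIV: universal families of functions, by the union bound.
-/

set_option autoImplicit false

namespace Pool.Agent.W405.PS

open Finset W926.PS

theorem count_ext {U V : Type} [Fintype U] [Fintype V] [DecidableEq U] [DecidableEq V] {t : ℕ}
    (s : Fin t → U) (g : U → V) :
    Fintype.card (U → V) ≤ Fintype.card V ^ t *
      (univ.filter (fun f : U → V => ∀ i, f (s i) = g (s i))).card := by
  classical
  have h : (univ : Finset (U → V)).card ≤ ((univ : Finset (Fin t → V)) ×ˢ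
      (univ.filter (fun f : U → V => ∀ i, f (s i) = g (s i)))).card := by
    refine card_le_card_of_injOn
      (fun h => (h ∘ s, fun u => if u ∈ Set.range s then g u else h u)) ?_ ?_
    · intro h _
      rw [mem_coe, mem_product]
      refine ⟨mem_univ _, ?_⟩
      rw [mem_filter]
      refine ⟨mem_univ _, fun i => ?_⟩
      simp
    · intro h _ h' _ heq
      simp only [Prod.mk.injEq] at heq
      funext u
      by_cases hu : u ∈ Set.range s
      · obtain ⟨i, rfl⟩ := hu
        exact congrFun heq.1 i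
      · have h2 := congrFun heq.2 u
        simp only [if_neg hu] at h2
        exact h2
  rw [card_product, card_univ, card_univ, Fintype.card_fun (α := Fin t), Fintype.card_fin] at h
  exact h

theorem bern (n : ℕ) : ∀ k : ℕ, n ^ (k + 1) + (k + 1) * n ^ k ≤ (n + 1) ^ (k + 1) := by
  intro k
  induction k with
  | zero => simp
  | succ k ih =>
    calc n ^ (k + 1 + 1) + (k + 1 + 1) * n ^ (k + 1)
        ≤ (n ^ (k + 1) + (k + 1) * n ^ k) * (n + 1) := by
          have e : (n ^ (k + 1) + (k + 1) * n ^ k) * (n + 1) =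
            n ^ (k + 1 + 1) + (k + 1 + 1) * n ^ (k + 1) + (k + 1) * n ^ k := by ring
          rw [e]
          exact Nat.le_add_right _ _
      _ ≤ (n + 1) ^ (k + 1) * (n + 1) := Nat.mul_le_mul_right _ ih
      _ = (n + 1) ^ (k + 1 + 1) := by ring

theorem two_pow (n : ℕ) : 2 * n ^ (n + 1) ≤ (n + 1) ^ (n + 1) := by
  have h1 := bern n n
  have h2 : n ^ (n + 1) ≤ (n + 1) * n ^ n := by
    rw [pow_succ, mul_comm]
    exact Nat.mul_le_mul_right _ (Nat.le_succ n)
  omega

theorem univ_fam : S_UNIV := by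
  intro V _ _ _ t
  obtain ⟨v, hv⟩ : ∃ v, v = Fintype.card V := ⟨_, rfl⟩
  have hv1 : 1 ≤ v := by rw [hv]; exact Fintype.card_pos
  obtain ⟨n, hn⟩ : ∃ n, v ^ t = n + 1 := by
    have : 1 ≤ v ^ t := Nat.one_le_pow _ _ hv1
    exact ⟨v ^ t - 1, by omega⟩
  refine ⟨(n + 1) * (t * (v + 1) + 1), ?_⟩
  intro U _ _ K hU
  classical
  rcases isEmpty_or_nonempty U with hE | hN
  · refine ⟨{fun u => isEmptyElim u}, ?_, ?_⟩
    · rw [card_singleton]
      exact Nat.mul_pos (Nat.mul_pos (Nat.succ_pos _) (Nat.succ_pos _)) (Nat.succ_pos _)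
    · intro S _ g
      exact ⟨_, mem_singleton_self _, fun u => isEmptyElim u⟩
  obtain ⟨j, hj⟩ : ∃ j, j = t * (K + v) + 1 := ⟨_, rfl⟩
  obtain ⟨M, hM⟩ : ∃ M, M = (n + 1) * j := ⟨_, rfl⟩
  obtain ⟨N, hNd⟩ : ∃ N, N = Fintype.card (U → V) := ⟨_, rfl⟩
  have hNpos : 0 < N := by rw [hNd]; exact Fintype.card_pos
  obtain ⟨P, hP⟩ : ∃ P : Finset ((Fin t → U) × (Fin t → V)),
      P = univ.filter (fun p => ∃ g : U → V, ∀ i, p.2 i = g (p.1 i)) := ⟨_, rfl⟩
  obtain ⟨fail, hfail⟩ : ∃ fail : (Fin t → U) × (Fin t → V) → Finset (U → V),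
      ∀ p, fail p = univ.filter (fun f : U → V => ¬ ∀ i, f (p.1 i) = p.2 i) := ⟨_, fun _ => rfl⟩
  have hA : ∀ p ∈ P, (n + 1) * (fail p).card ≤ n * N := by
    intro p hp
    rw [hP, mem_filter] at hp
    obtain ⟨g, hg⟩ := hp.2
    have h1 := count_ext p.1 g
    rw [← hv, hn, ← hNd] at h1
    have h2 : (univ.filter (fun f : U → V => ∀ i, f (p.1 i) = g (p.1 i))) =
        univ.filter (fun f : U → V => ∀ i, f (p.1 i) = p.2 i) := by
      refine filter_congr fun f _ => ?_
      simp only [hg]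
    rw [h2] at h1
    have h3 : (univ.filter (fun f : U → V => ∀ i, f (p.1 i) = p.2 i)).card + (fail p).card = N := by
      rw [hfail p, card_filter_add_card_filter_not, card_univ, ← hNd]
    have h4 : (n + 1) * (univ.filter (fun f : U → V => ∀ i, f (p.1 i) = p.2 i)).card +
        (n + 1) * (fail p).card = n * N + N := by
      rw [← mul_add, h3]
      ring
    omega
  have hPc : P.card ≤ 2 ^ (t * (K + v)) := by
    have h1 : P.card ≤ Fintype.card ((Fin t → U) × (Fin t → V)) := by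
      rw [hP, ← card_univ]
      exact card_filter_le _ _
    refine h1.trans ?_
    rw [Fintype.card_prod, Fintype.card_fun, Fintype.card_fun, Fintype.card_fin, ← hv]
    calc Fintype.card U ^ t * v ^ t ≤ (2 ^ K) ^ t * (2 ^ v) ^ t := by
          exact Nat.mul_le_mul (Nat.pow_le_pow_left hU t)
            (Nat.pow_le_pow_left Nat.lt_two_pow_self.le t)
      _ = 2 ^ (t * (K + v)) := by
          rw [← mul_pow, ← pow_add, ← pow_mul, mul_comm]
  have hT : ∃ T : Fin M → (U → V), ∀ p ∈ P, ∃ m, T m ∉ fail p := by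
    by_contra hcon
    push Not at hcon
    have h1 : (univ : Finset (Fin M → (U → V))) ⊆
        P.biUnion (fun p => Fintype.piFinset (fun _ : Fin M => fail p)) := by
      intro T _
      obtain ⟨p, hp, hT⟩ := hcon T
      rw [mem_biUnion]
      exact ⟨p, hp, Fintype.mem_piFinset.2 hT⟩
    have h2 : N ^ M ≤ ∑ p ∈ P, (fail p).card ^ M := by
      have h3 := (card_le_card h1).trans card_biUnion_le
      rw [card_univ, Fintype.card_fun, Fintype.card_fin, ← hNd] at h3
      refine h3.trans (le_of_eq (sum_congr rfl fun p _ => ?_))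
      rw [Fintype.card_piFinset, prod_const, card_univ, Fintype.card_fin]
    have h3 : (n + 1) ^ M * N ^ M ≤ (P.card * n ^ M) * N ^ M := by
      calc (n + 1) ^ M * N ^ M ≤ (n + 1) ^ M * ∑ p ∈ P, (fail p).card ^ M :=
            Nat.mul_le_mul_left _ h2
        _ = ∑ p ∈ P, ((n + 1) * (fail p).card) ^ M := by
            rw [mul_sum]
            exact sum_congr rfl fun p _ => (mul_pow _ _ _).symm
        _ ≤ ∑ p ∈ P, (n * N) ^ M := sum_le_sum fun p hp => Nat.pow_le_pow_left (hA p hp) M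
        _ = (P.card * n ^ M) * N ^ M := by
            rw [sum_const, smul_eq_mul, mul_pow, mul_assoc]
    have h4 : (n + 1) ^ M ≤ P.card * n ^ M :=
      Nat.le_of_mul_le_mul_right h3 (Nat.pow_pos hNpos)
    have h5 : 2 * (P.card * n ^ M) ≤ (n + 1) ^ M := by
      calc 2 * (P.card * n ^ M) ≤ 2 * (2 ^ (t * (K + v)) * n ^ M) :=
            Nat.mul_le_mul_left _ (Nat.mul_le_mul_right _ hPc)
        _ = (2 * n ^ (n + 1)) ^ j := by
            rw [mul_pow, ← pow_mul, ← hM, hj]
            ring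
        _ ≤ ((n + 1) ^ (n + 1)) ^ j := Nat.pow_le_pow_left (two_pow n) j
        _ = (n + 1) ^ M := by rw [← pow_mul, hM]
    have h6 : 0 < (n + 1) ^ M := Nat.pow_pos (Nat.succ_pos n)
    omega
  obtain ⟨T, hT⟩ := hT
  refine ⟨univ.image T, ?_, ?_⟩
  · refine card_image_le.trans ?_
    rw [card_univ, Fintype.card_fin, hM, hj, mul_assoc]
    refine Nat.mul_le_mul_left _ ?_
    nlinarith [Nat.zero_le (t * v * K), Nat.zero_le K, Nat.zero_le t]
  · intro S hS g
    obtain ⟨s, hs⟩ : ∃ s : Fin t → U, ∀ u ∈ S, ∃ i, s i = u := by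
      refine ⟨fun i => if h : (i : ℕ) < S.card then (S.equivFin.symm ⟨i, h⟩ : U) else
        Classical.arbitrary U, fun u hu => ?_⟩
      have h1 : ((S.equivFin ⟨u, hu⟩ : Fin S.card) : ℕ) < S.card := Fin.is_lt _
      refine ⟨⟨(S.equivFin ⟨u, hu⟩ : Fin S.card), h1.trans_le hS⟩, ?_⟩
      refine (dif_pos h1).trans ?_
      simp
    obtain ⟨m, hm⟩ := hT (s, g ∘ s) (by
      rw [hP, mem_filter]
      exact ⟨mem_univ _, g, fun i => rfl⟩)
    rw [hfail, mem_filter, not_and, not_not] at hm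
    have hm' := hm (mem_univ _)
    refine ⟨T m, mem_image_of_mem _ (mem_univ m), fun u hu => ?_⟩
    obtain ⟨i, rfl⟩ := hs u hu
    exact hm' i

end Pool.Agent.W405.PS
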